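import Pool.Agent.Helper332.FA7

set_option autoImplicit false

namespace Pool.Agent.Results.MP_5beb1e_gt.QuotientCriterion

open Topology

/-- Let `X` be a Lindelöf Tychonoff space having a Tychonoff quotient space `Z` (for instance `Z = X`)
such that `Z` has infinitely many clopen sets, or contains a nondegenerate continuum, or is infinite
and metrizable, or is infinite and locally connected, or has a non-isolated point with a neighbourhood
that is metrizable or locally connected. Then there is an infinite Tychonoff space `Y` with a countable
network (indeed a subspace of the unit interval) and an open continuous surjective homomorphism from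
`A(X)` onto `A(Y)`. -/
theorem result (X : Type) [tX : TopologicalSpace X] (_hL : LindelofSpace X) (_hX : T35Space X)
    (Z : Type) [TopologicalSpace Z] [T35Space Z] (q : X → Z) (hq : IsQuotientMap q)
    (hZ : {U : Set Z | IsClopen U}.Infinite ∨
      (∃ K : Set Z, IsCompact K ∧ IsPreconnected K ∧ K.Nontrivial) ∨
      (Infinite Z ∧ TopologicalSpace.MetrizableSpace Z) ∨
      (Infinite Z ∧ LocallyConnectedSpace Z) ∨
      ∃ z : Z, ¬ IsOpen ({z} : Set Z) ∧
        ∃ N ∈ 𝓝 z, TopologicalSpace.MetrizableSpace N ∨ LocallyConnectedSpace N) :
      ∃ (Y : Type) (tY : TopologicalSpace Y), T35Space Y ∧ Infinite Y ∧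
        (∃ N : Set (Set Y), N.Countable ∧
          ∀ (x : Y) (U : Set Y), IsOpen U → x ∈ U → ∃ A ∈ N, x ∈ A ∧ A ⊆ U) ∧
        ∃ f : FreeAbelianGroup X →+ FreeAbelianGroup Y,
          Function.Surjective ⇑f ∧
          @Continuous (FreeAbelianGroup X) (FreeAbelianGroup Y)
            (sInf {t : AddGroupTopology (FreeAbelianGroup X) |
              @Continuous X (FreeAbelianGroup X) tX t.toTopologicalSpace
                (FreeAbelianGroup.of : X → FreeAbelianGroup X)}).toTopologicalSpace
            (sInf {t : AddGroupTopology (FreeAbelianGroup Y) |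
              @Continuous Y (FreeAbelianGroup Y) tY t.toTopologicalSpace
                (FreeAbelianGroup.of : Y → FreeAbelianGroup Y)}).toTopologicalSpace
            ⇑f ∧
          @IsOpenMap (FreeAbelianGroup X) (FreeAbelianGroup Y)
            (sInf {t : AddGroupTopology (FreeAbelianGroup X) |
              @Continuous X (FreeAbelianGroup X) tX t.toTopologicalSpace
                (FreeAbelianGroup.of : X → FreeAbelianGroup X)}).toTopologicalSpace
            (sInf {t : AddGroupTopology (FreeAbelianGroup Y) |
              @Continuous Y (FreeAbelianGroup Y) tY t.toTopologicalSpace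
                (FreeAbelianGroup.of : Y → FreeAbelianGroup Y)}).toTopologicalSpace
            ⇑f := by
  obtain ⟨S, -, hSi, g, hg⟩ := (Pool.Agent.Helper332.FA.good_all hZ).comp hq
  obtain ⟨h1, h2, h3⟩ := Pool.Agent.Helper332.FA.quotient_open g hg
  refine ⟨S, inferInstance, inferInstance, hSi.to_subtype,
    Pool.Agent.Helper332.FA.countable_network S, FreeAbelianGroup.map g, h1, ?_, ?_⟩
  · rw [Pool.Agent.Helper332.FA.sInf_eq, Pool.Agent.Helper332.FA.sInf_eq]
    exact h2
  · rw [Pool.Agent.Helper332.FA.sInf_eq, Pool.Agent.Helper332.FA.sInf_eq]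
    exact h3

end Pool.Agent.Results.MP_5beb1e_gt.QuotientCriterion
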